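import Pool.Agent.X91.HarmEst

/-!
MP_29b22c_an, Q1: for every `n ≥ 3` there is a domain in `ℝⁿ` whose minimal pseudometric is not
continuous.  The domain is the ball of radius `10` from which the part of a coordinate hyperplane
outside the open unit ball has been removed.
-/

open Metric Set InnerProductSpace Filter Topology
open scoped Real

namespace Pool.Agent.Results.MP_29b22c_an.Discontinuous

/-- Conformal harmonic maps from the unit disc to a Euclidean space: harmonic, and `|f_x| = |f_y|`,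
`f_x ⬝ f_y = 0` at every point of the disc. -/
def IsConformalHarmonic {V : Type} [NormedAddCommGroup V] [InnerProductSpace ℝ V]
    (f : ℂ → V) : Prop :=
  HarmonicOnNhd f (ball 0 1) ∧ ∀ z ∈ ball (0 : ℂ) 1,
    ‖fderiv ℝ f z 1‖ = ‖fderiv ℝ f z Complex.I‖ ∧
    inner ℝ (fderiv ℝ f z 1) (fderiv ℝ f z Complex.I) = 0

/-- The numbers `1 / r` for which some conformal harmonic disc `f` in `Ω` has `f(0) = x` and
`f_x(0) = r u`. -/
def admissible {n : ℕ} (Ω : Set (EuclideanSpace ℝ (Fin n))) (x u : EuclideanSpace ℝ (Fin n)) :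
    Set ℝ :=
  {t | ∃ r : ℝ, 0 < r ∧ t = 1 / r ∧ ∃ f : ℂ → EuclideanSpace ℝ (Fin n),
    IsConformalHarmonic f ∧ MapsTo f (ball 0 1) Ω ∧ f 0 = x ∧ fderiv ℝ f 0 1 = r • u}

open Classical in
/-- The minimal pseudometric `g_Ω(x, u)`. -/
noncomputable def minimalMetric {n : ℕ} (Ω : Set (EuclideanSpace ℝ (Fin n)))
    (x u : EuclideanSpace ℝ (Fin n)) : ℝ :=
  if u = 0 then 0 else sInf (admissible Ω x u)

section

variable {n : ℕ}

/-- Standard basis vectors. -/
noncomputable def e (i : Fin n) : EuclideanSpace ℝ (Fin n) := EuclideanSpace.single i 1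

theorem norm_e (i : Fin n) : ‖(e i : EuclideanSpace ℝ (Fin n))‖ = 1 := by
  unfold e
  rw [PiLp.norm_single, norm_one]

theorem inner_e (i j : Fin n) (h : i ≠ j) : inner ℝ (e i) (e j : EuclideanSpace ℝ (Fin n)) = 0 := by
  unfold e
  rw [EuclideanSpace.inner_single_left]
  simp [h]

/-- The domain. -/
def Om (k : Fin n) : Set (EuclideanSpace ℝ (Fin n)) := {x | ‖x‖ < 10 ∧ (x k ≠ 0 ∨ ‖x‖ < 1)}

theorem Om_open (k : Fin n) : IsOpen (Om k) := by
  have hk : Continuous fun x : EuclideanSpace ℝ (Fin n) => x k :=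
    (EuclideanSpace.proj k : EuclideanSpace ℝ (Fin n) →L[ℝ] ℝ).continuous
  exact (isOpen_lt continuous_norm continuous_const).inter
    ((isOpen_ne_fun hk continuous_const).union (isOpen_lt continuous_norm continuous_const))

theorem Om_zero (k : Fin n) : (0 : EuclideanSpace ℝ (Fin n)) ∈ Om k := by
  refine ⟨?_, Or.inr ?_⟩ <;> rw [norm_zero] <;> norm_num

theorem Om_connected (k : Fin n) : IsConnected (Om k) := by
  have hstar : StarConvex ℝ (0 : EuclideanSpace ℝ (Fin n)) (Om k) := by
    rw [starConvex_zero_iff]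
    intro x hx a ha0 ha1
    have hle : ‖a • x‖ ≤ ‖x‖ := by
      rw [norm_smul, Real.norm_of_nonneg ha0]
      have := norm_nonneg x
      nlinarith
    refine ⟨hle.trans_lt hx.1, ?_⟩
    rcases hx.2 with h | h
    · rcases ha0.eq_or_lt with h0 | h0
      · right
        rw [← h0, zero_smul, norm_zero]
        norm_num
      · left
        have : (a • x) k = a * x k := rfl
        rw [this]
        exact mul_ne_zero h0.ne' h
    · exact Or.inr (hle.trans_lt h)
  exact (hstar.isPathConnected (Om_zero k)).isConnected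

/-- The horizontal linear map `ζ ↦ R (Re ζ e_i + Im ζ e_j)`. -/
noncomputable def lin (R : ℝ) (i j : Fin n) : ℂ →L[ℝ] EuclideanSpace ℝ (Fin n) :=
  R • ((Complex.reCLM.smulRight (e i)) + (Complex.imCLM.smulRight (e j)))

theorem lin_apply (R : ℝ) (i j : Fin n) (z : ℂ) :
    lin R i j z = R • (z.re • e i + z.im • e j) := rfl

theorem norm_lin (R : ℝ) (i j : Fin n) (h : i ≠ j) (z : ℂ) :
    ‖lin R i j z‖ ^ 2 = R ^ 2 * ‖z‖ ^ 2 := by
  rw [lin_apply, norm_smul, mul_pow, Real.norm_eq_abs, sq_abs, norm_add_sq_real, norm_smul,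
    norm_smul, norm_e, norm_e, inner_smul_left, inner_smul_right, inner_e i j h,
    ← Complex.normSq_eq_norm_sq, Complex.normSq_apply]
  simp only [Real.norm_eq_abs, mul_one, mul_zero, sq_abs]
  ring

theorem flat_conformal (p : EuclideanSpace ℝ (Fin n)) (R : ℝ) (i j : Fin n) (h : i ≠ j) :
    IsConformalHarmonic (fun z => p + lin R i j z) := by
  have hd : ∀ z, fderiv ℝ (fun z => p + lin R i j z) z = lin R i j := by
    intro z
    rw [fderiv_const_add]
    exact (lin R i j).fderiv
  refine ⟨?_, ?_⟩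
  · have h1 : HarmonicOnNhd (fun z : ℂ => z) (ball 0 1) := fun z _ => analyticAt_id.harmonicAt
    have h2 : HarmonicOnNhd (fun z : ℂ => lin R i j z) (ball 0 1) := h1.comp_CLM (lin R i j)
    exact (harmonicOnNhd_const p).add h2
  · intro z _
    rw [hd]
    refine ⟨?_, ?_⟩
    · have h1 := norm_lin R i j h 1
      have h2 := norm_lin R i j h Complex.I
      rw [norm_one] at h1
      rw [Complex.norm_I] at h2
      have h3 : ‖lin R i j 1‖ ^ 2 = ‖lin R i j Complex.I‖ ^ 2 := by rw [h1, h2]
      exact (pow_left_inj₀ (norm_nonneg _) (norm_nonneg _) two_ne_zero).mp h3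
    · rw [lin_apply, lin_apply]
      simp [inner_smul_left, inner_smul_right, inner_e i j h]

theorem bddBelow_admissible (Ω : Set (EuclideanSpace ℝ (Fin n))) (x u) :
    BddBelow (admissible Ω x u) := by
  refine ⟨0, ?_⟩
  rintro t ⟨r, hr, rfl, _⟩
  positivity

theorem e_ne_zero (i : Fin n) : (e i : EuclideanSpace ℝ (Fin n)) ≠ 0 := by
  intro h
  have := norm_e i
  rw [h, norm_zero] at this
  norm_num at this

/-- Large flat discs at height `ε`. -/
theorem upper (i j k : Fin n) (hij : i ≠ j) (hik : i ≠ k) (hjk : j ≠ k) (ε : ℝ) (h0 : 0 < ε)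
    (h1 : ε < 1 / 2) : minimalMetric (Om k) (ε • e k) (e i) ≤ 20 / 199 := by
  unfold minimalMetric
  rw [if_neg (e_ne_zero i)]
  refine csInf_le (bddBelow_admissible _ _ _) ⟨199 / 20, by norm_num, by norm_num,
    fun z => ε • e k + lin (199 / 20) i j z, flat_conformal _ _ _ _ hij, ?_, ?_, ?_⟩
  · intro z hz
    rw [mem_ball_zero_iff] at hz
    have hinner : inner ℝ (ε • e k) (lin (199 / 20) i j z) = 0 := by
      rw [lin_apply]
      simp [inner_smul_left, inner_smul_right, inner_add_right, inner_e k i (Ne.symm hik),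
        inner_e k j (Ne.symm hjk)]
    have hn : ‖ε • e k + lin (199 / 20) i j z‖ ^ 2 = ε ^ 2 + (199 / 20) ^ 2 * ‖z‖ ^ 2 := by
      rw [norm_add_sq_real, hinner, norm_lin _ _ _ hij, norm_smul, norm_e, Real.norm_eq_abs,
        mul_one, sq_abs]
      ring
    refine ⟨?_, Or.inl ?_⟩
    · have hz0 := norm_nonneg z
      have h2 : ‖ε • e k + lin (199 / 20) i j z‖ ^ 2 < 10 ^ 2 := by
        rw [hn]
        nlinarith
      exact lt_of_pow_lt_pow_left₀ 2 (by norm_num) h2
    · have hc : (ε • e k + lin (199 / 20) i j z) k = ε := by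
        rw [lin_apply]
        have : (ε • e k + (199 / 20 : ℝ) • (z.re • e i + z.im • e j) : EuclideanSpace ℝ (Fin n)) k =
          ε * (e k : EuclideanSpace ℝ (Fin n)) k + (199 / 20) *
            (z.re * (e i : EuclideanSpace ℝ (Fin n)) k +
              z.im * (e j : EuclideanSpace ℝ (Fin n)) k) := rfl
        rw [this]
        unfold e
        simp [hik, hjk, Ne.symm hik, Ne.symm hjk]
      rw [hc]
      exact h0.ne'
  · simp
  · rw [fderiv_const_add]
    rw [(lin (199 / 20) i j).fderiv, lin_apply]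
    simp

/-- No large discs through the centre of the window. -/
theorem lower (i j k : Fin n) (hij : i ≠ j) :
    10 / 99 ≤ minimalMetric (Om k) 0 (e i) := by
  unfold minimalMetric
  rw [if_neg (e_ne_zero i)]
  refine le_csInf ?_ ?_
  · refine ⟨1 / (1 / 2), 1 / 2, by norm_num, rfl, fun z => 0 + lin (1 / 2) i j z,
      flat_conformal _ _ _ _ hij, ?_, ?_, ?_⟩
    · intro z hz
      rw [mem_ball_zero_iff] at hz
      have h2 : ‖0 + lin (1 / 2) i j z‖ ^ 2 < 1 ^ 2 := by
        rw [zero_add, norm_lin _ _ _ hij]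
        have := norm_nonneg z
        nlinarith
      have h3 : ‖0 + lin (1 / 2) i j z‖ < 1 := lt_of_pow_lt_pow_left₀ 2 (by norm_num) h2
      exact ⟨by linarith, Or.inr h3⟩
    · simp
    · rw [fderiv_const_add, (lin (1 / 2) i j).fderiv, lin_apply]
      simp
  · rintro t ⟨r, hr, rfl, f, ⟨hf, hconf⟩, hmaps, hf0, hfx⟩
    have hrle : r ≤ 99 / 10 := by
      by_contra hcon
      rw [not_le] at hcon
      have h0mem : (0 : ℂ) ∈ ball (0 : ℂ) 1 := mem_ball_self one_pos
      obtain ⟨hc1, hc2⟩ := hconf 0 h0mem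
      have hnx : ‖fderiv ℝ f 0 1‖ = r := by
        rw [hfx, norm_smul, norm_e, mul_one, Real.norm_of_nonneg hr.le]
      have hny : ‖fderiv ℝ f 0 Complex.I‖ = r := by rw [← hc1, hnx]
      -- a zero of the last coordinate on the circle of radius one half
      obtain ⟨w, hw, hwk⟩ : ∃ w : ℂ, ‖w‖ = 1 / 2 ∧ f w k = 0 := by
        have hk : HarmonicOnNhd (fun z => f z k) (ball 0 1) :=
          hf.comp_CLM (EuclideanSpace.proj k : EuclideanSpace ℝ (Fin n) →L[ℝ] ℝ)
        have hsub : closedBall (0 : ℂ) |1 / 2| ⊆ ball 0 1 := by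
          rw [abs_of_pos (by norm_num : (0 : ℝ) < 1 / 2)]
          exact closedBall_subset_ball (by norm_num)
        have havg := (hk.mono hsub).circleAverage_eq
        rw [hf0, Real.circleAverage_eq_intervalAverage] at havg
        have hcont : ContinuousOn (fun θ => f (circleMap 0 (1 / 2) θ) k) (uIcc 0 (2 * π)) := by
          have h1 : ContinuousOn (fun z => f z k) (ball 0 1) := hk.continuousOn
          refine h1.comp (continuous_circleMap 0 (1 / 2)).continuousOn ?_
          intro θ _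
          rw [mem_ball_zero_iff, norm_circleMap_zero]
          norm_num
        obtain ⟨c, _, hc⟩ := exists_eq_interval_average (by positivity) hcont
        refine ⟨circleMap 0 (1 / 2) c, ?_, ?_⟩
        · rw [norm_circleMap_zero]
          norm_num
        · rw [hc, havg]
          rfl
      have hwmem : w ∈ ball (0 : ℂ) 1 := by
        rw [mem_ball_zero_iff, hw]
        norm_num
      have hfw : ‖f w‖ < 1 := by
        rcases (hmaps hwmem).2 with h | h
        · exact absurd hwk h
        · exact h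
      have hdw : ‖fderiv ℝ f 0 w‖ ^ 2 = r ^ 2 / 4 := by
        have hdec : w = w.re • (1 : ℂ) + w.im • Complex.I := by
          apply Complex.ext <;> simp
        have h1 : fderiv ℝ f 0 w = w.re • fderiv ℝ f 0 1 + w.im • fderiv ℝ f 0 Complex.I := by
          conv_lhs => rw [hdec]
          rw [map_add, map_smul, map_smul]
        rw [h1, norm_add_sq_real, inner_smul_left, inner_smul_right, hc2, norm_smul, norm_smul,
          hnx, hny, Real.norm_eq_abs, Real.norm_eq_abs, mul_pow, mul_pow, sq_abs, sq_abs]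
        have hw2 : w.re ^ 2 + w.im ^ 2 = 1 / 4 := by
          have : ‖w‖ ^ 2 = w.re ^ 2 + w.im ^ 2 := by
            rw [← Complex.normSq_eq_norm_sq, Complex.normSq_apply]; ring
          rw [← this, hw]
          norm_num
        simp only [mul_zero, add_zero]
        linear_combination r ^ 2 * hw2
      have hdw' : ‖fderiv ℝ f 0 w‖ = r / 2 := by
        have h1 : ‖fderiv ℝ f 0 w‖ ^ 2 = (r / 2) ^ 2 := by rw [hdw]; ring
        exact (pow_left_inj₀ (norm_nonneg _) (by positivity) two_ne_zero).mp h1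
      have hest := Pool.Agent.X91.HarmEst.vector f hf hf0 10
        (fun z hz => (hmaps hz).1.le) (999 / 1000) (by norm_num) (by norm_num) w
        (by rw [hw]; norm_num)
      rw [hnx, hny, hw] at hest
      have htri : r / 2 - 1 < ‖f w - fderiv ℝ f 0 w‖ := by
        have h1 := norm_sub_norm_le (fderiv ℝ f 0 w) (f w)
        rw [norm_sub_rev, hdw'] at h1
        linarith
      have h2 : (r / 2 - 1) ^ 2 < ‖f w - fderiv ℝ f 0 w‖ ^ 2 :=
        pow_lt_pow_left₀ htri (by linarith) two_ne_zero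
      norm_num at hest
      nlinarith
    rw [div_le_div_iff₀ (by norm_num) hr]
    linarith

end

/-- **Answer to Q1 (positive), for every `n ≥ 3`.** There is a domain in `ℝⁿ` whose minimal
pseudometric is not continuous. -/
theorem result (n : ℕ) (hn : 3 ≤ n) :
    ∃ Ω : Set (EuclideanSpace ℝ (Fin n)), IsOpen Ω ∧ IsConnected Ω ∧
      ¬ ContinuousOn (fun p : EuclideanSpace ℝ (Fin n) × EuclideanSpace ℝ (Fin n) =>
        minimalMetric Ω p.1 p.2) (Ω ×ˢ univ) := by
  set i : Fin n := ⟨0, by omega⟩ with hi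
  set j : Fin n := ⟨1, by omega⟩ with hj
  set k : Fin n := ⟨2, by omega⟩ with hk
  have hij : i ≠ j := by simp [hi, hj]
  have hik : i ≠ k := by simp [hi, hk]
  have hjk : j ≠ k := by simp [hj, hk]
  refine ⟨Om k, Om_open k, Om_connected k, ?_⟩
  intro hcont
  have h0 : ((0 : EuclideanSpace ℝ (Fin n)), (e i : EuclideanSpace ℝ (Fin n))) ∈
      Om k ×ˢ (univ : Set (EuclideanSpace ℝ (Fin n))) := ⟨Om_zero k, mem_univ _⟩
  have h1 := hcont _ h0
  have hpath : Tendsto (fun ε : ℝ => ((ε • e k : EuclideanSpace ℝ (Fin n)),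
      (e i : EuclideanSpace ℝ (Fin n)))) (𝓝[>] 0)
      (𝓝[Om k ×ˢ (univ : Set (EuclideanSpace ℝ (Fin n)))] (0, e i)) := by
    rw [tendsto_nhdsWithin_iff]
    refine ⟨?_, ?_⟩
    · have hc : Continuous (fun ε : ℝ => ((ε • e k : EuclideanSpace ℝ (Fin n)),
        (e i : EuclideanSpace ℝ (Fin n)))) := by fun_prop
      have := hc.tendsto 0
      rw [zero_smul] at this
      exact this.mono_left nhdsWithin_le_nhds
    · have hlt : ∀ᶠ ε : ℝ in 𝓝[>] 0, ε < 1 / 2 :=
        (gt_mem_nhds (by norm_num : (0 : ℝ) < 1 / 2)).filter_mono nhdsWithin_le_nhds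
      filter_upwards [hlt, self_mem_nhdsWithin] with ε h2 h3
      have h3' : 0 < ε := h3
      refine ⟨⟨?_, Or.inr ?_⟩, mem_univ _⟩ <;>
        rw [norm_smul, norm_e, Real.norm_of_nonneg h3'.le] <;> linarith
  have h2 := h1.tendsto.comp hpath
  have h3 : ∀ᶠ ε : ℝ in 𝓝[>] 0, minimalMetric (Om k) (ε • e k) (e i) ≤ 20 / 199 := by
    have hlt : ∀ᶠ ε : ℝ in 𝓝[>] 0, ε < 1 / 2 :=
      (gt_mem_nhds (by norm_num : (0 : ℝ) < 1 / 2)).filter_mono nhdsWithin_le_nhds
    filter_upwards [hlt, self_mem_nhdsWithin] with ε h4 h5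
    exact upper i j k hij hik hjk ε h5 h4
  have h4 := le_of_tendsto h2 h3
  have h5 := lower i j k hij
  simp only at h4
  norm_num at h4 h5
  linarith

end Pool.Agent.Results.MP_29b22c_an.Discontinuous
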